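import Pool.Agent.helper62.HF.SpecV
import Pool.Agent.helper62.QU.INV
import Pool.Agent.helper62.QU.CA1

/-!
# Row hf:TAI (MP_07c750_an, project HALF): the tail
-/

set_option autoImplicit false

open scoped MatrixGroups ContDiff Topology UpperHalfPlane ComplexConjugate
open UpperHalfPlane MeasureTheory Filter Set

namespace Pool.Agent.HV

open Pool.Agent.RS Pool.Agent.MS

theorem TAI_cont {n : WithTop ℕ∞} {φ : ℍ → ℂ} (h : QU.CD n φ) : Continuous φ :=
  ((QU.CA1 ℂ).1 φ).1 ((QU.CA1 ℂ).2.1 φ 0 n bot_le h)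

theorem TAI_ent (i j : Fin 2) : Continuous fun g : SL(2, ℝ) => g.1 i j :=
  continuous_subtype_val.matrix_elem i j

theorem TAI_e (k : SL(2, ℝ)) : (k⁻¹).1 0 0 = k.1 1 1 ∧ (k⁻¹).1 0 1 = -k.1 0 1 ∧ (k⁻¹).1 1 0 = -k.1 1 0 ∧
    (k⁻¹).1 1 1 = k.1 0 0 := by
  rw [Matrix.SpecialLinearGroup.SL2_inv_expl]
  exact ⟨rfl, rfl, rfl, rfl⟩

theorem TAI_ent3 (k : SL(2, ℝ)) (h : ∀ i j, |(k⁻¹).1 i j| ≤ 3) : ∀ i j, |k.1 i j| ≤ 3 := by
  obtain ⟨h1, h2, h3, h4⟩ := TAI_e k
  intro i j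
  fin_cases i <;> fin_cases j
  · have := h 1 1
    rw [h4] at this
    exact this
  · have := h 0 1
    rw [h2, abs_neg] at this
    exact this
  · have := h 1 0
    rw [h3, abs_neg] at this
    exact this
  · have := h 0 0
    rw [h1] at this
    exact this

theorem TAI_G (e e' : ℍ → ℂ) (k : SL(2, ℝ)) :
    ∫ z : ℍ, e' z * conj (e (k⁻¹ • z)) = conj (∫ z : ℍ, e z * conj (e' ((k⁻¹)⁻¹ • z))) := by
  have : SMulInvariantMeasure SL(2, ℝ) ℍ (volume : Measure ℍ) := QU.INV.1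
  have hmp : MeasurePreserving (fun z : ℍ => k • z) (volume : Measure ℍ) volume :=
    measurePreserving_smul k volume
  have hemb : MeasurableEmbedding (fun z : ℍ => k • z) := measurableEmbedding_const_smul k
  rw [← integral_conj, ← hmp.integral_comp hemb (fun z => e' z * conj (e (k⁻¹ • z)))]
  refine integral_congr_ae (Eventually.of_forall fun w => ?_)
  show e' (k • w) * conj (e (k⁻¹ • (k • w))) = conj (e w * conj (e' ((k⁻¹)⁻¹ • w)))
  rw [inv_smul_smul, inv_inv, map_mul, Complex.conj_conj]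
  ring

theorem TAI_cpt : IsCompact {k : SL(2, ℝ) | ∀ i j, |k.1 i j| ≤ 3} := by
  have h1 : IsCompact {m : Matrix (Fin 2) (Fin 2) ℝ | ∀ i j, |m i j| ≤ 3} := by
    have h2 : {m : Matrix (Fin 2) (Fin 2) ℝ | ∀ i j, |m i j| ≤ 3} =
        Set.pi Set.univ (fun _ : Fin 2 => Set.pi Set.univ (fun _ : Fin 2 => Icc (-3 : ℝ) 3)) := by
      ext m
      constructor
      · intro h i _ j _
        exact abs_le.1 (h i j)
      · intro h i j
        exact abs_le.2 (h i (Set.mem_univ _) j (Set.mem_univ _))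
    rw [h2]
    exact isCompact_univ_pi fun _ => isCompact_univ_pi fun _ => isCompact_Icc
  exact Matrix.SpecialLinearGroup.isClosedEmbedding_val.isCompact_preimage h1

/-- the set of the relevant `k` -/
def TAI_Z (δ : ℝ) : Set SL(2, ℝ) := {k | (∀ i j, |k.1 i j| ≤ 3) ∧ δ < |k.1 1 0|}

theorem TAI_Zm (δ : ℝ) : MeasurableSet (TAI_Z δ) :=
  TAI_cpt.isClosed.measurableSet.inter (isOpen_lt continuous_const (TAI_ent 1 0).abs).measurableSet

theorem TAI_proof (hSCX : SCX_stmt) (hOSC : MS.OSC_stmt) (hGKF : MS.GKF_stmt) (hSTB : MS.STB_stmt)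
    (hCV1 : RS.CV1_stmt) (hFL0 : RS.FL0_stmt) (hGMG : RS.GMG_stmt) : TAI_stmt := by
  intro Γ F β0 α0 β1 α T δ1 hΓ hF hβ0 hα0 hβ1 hα hT hδ1
  obtain ⟨C1, hC1, h1⟩ := hOSC β0 α0 β1 α hβ0 hα0 hβ1 hα
  have hE : 0 < Real.exp (-T) := Real.exp_pos _
  have hE1 : Real.exp (-T) ≤ 1 := Real.exp_le_one_iff.mpr (by linarith)
  have hZ : mG (TAI_Z δ1) < ⊤ := lt_of_le_of_lt (measure_mono fun k hk => hk.1) (hGMG.2.1 _ TAI_cpt)
  obtain ⟨m, hm⟩ : ∃ m : ℝ, m = (mG (TAI_Z δ1)).toReal := ⟨_, rfl⟩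
  have hm0 : 0 ≤ m := by rw [hm]; exact ENNReal.toReal_nonneg
  have hmZ : mG (TAI_Z δ1) = ENNReal.ofReal m := by rw [hm, ENNReal.ofReal_toReal hZ.ne]
  obtain ⟨C', hC'⟩ : ∃ C' : ℝ, C' = C1 * Real.exp (-(T / 2)) / (Real.exp (-T) * δ1) ^ 2 * m := ⟨_, rfl⟩
  have hC'0 : 0 ≤ C' := by rw [hC']; positivity
  have hsb : SB (1 / 4) (st (-T) β0) := by
    refine (hSTB.2.2.2.2.1 (Real.exp (-T) * (1 / 4)) (1 / 4) (st (-T) β0) (by linarith)).1 ?_
    exact hSTB.2.2.1 (1 / 4) (-T) β0 hβ0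
  have hTB : TB (1 / 4) (pc (st (-T) β0) α0) := (hCV1.2.2 (1 / 4) α0 (st (-T) β0) hα0 hsb).1
  have hTB' : TB (1 / 4) (pc β1 α) := (hCV1.2.2 (1 / 4) α β1 hα hβ1).1
  refine ⟨C' ^ 2 + 1, by positivity, ?_⟩
  intro r s D hr hs hsm hsi hD hloc
  have hr0 : 0 < r := by linarith
  have hTs := hFL0.2.1 _ r _ hTB
  have hTs' := hFL0.2.1 _ r _ hTB'
  have hG : ∀ k : SL(2, ℝ), ∫ z : ℍ, pk r (pc β1 α) z * conj (pk r (pc (st (-T) β0) α0) (k⁻¹ • z)) =
      conj (gk r (pc (st (-T) β0) α0) (pc β1 α) k⁻¹) := fun k => TAI_G _ _ k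
  have hkey := hSCX Γ F (pk r (pc (st (-T) β0) α0)) (pk r (pc β1 α)) s D (TAI_Z δ1) (C' / r ^ 2) hΓ hF
    (TAI_cont hTs.1) hTs.2 (TAI_cont hTs'.1) hTs'.2 hs hsm hsi hD (TAI_Zm δ1) (by positivity) (by
      intro h k hh hk hne
      constructor
      · apply TAI_ent3
        refine (hGKF β0 α0 β1 α T r k⁻¹ hβ0 hα0 hβ1 hα hT hr).1 ?_
        intro h0
        apply hne
        rw [hG k, h0, map_zero]
      · have h2 : ∃ z : ℍ, pk r (pc β1 α) z * conj (pk r (pc (st (-T) β0) α0) (k⁻¹ • z)) ≠ 0 := by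
          by_contra hcon
          apply hne
          have h3 : ∀ z : ℍ, pk r (pc β1 α) z * conj (pk r (pc (st (-T) β0) α0) (k⁻¹ • z)) = 0 := by
            intro z
            by_contra h4
            exact hcon ⟨z, h4⟩
          have h5 : (fun z : ℍ => pk r (pc β1 α) z * conj (pk r (pc (st (-T) β0) α0) (k⁻¹ • z))) = fun _ => 0 :=
            funext h3
          rw [h5, integral_zero]
        obtain ⟨z, hz⟩ := h2
        have hz1 : pc β1 α z ≠ 0 := by
          intro h0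
          apply hz
          unfold pk
          rw [h0, zero_mul, zero_mul]
        have hz2 : pc (st (-T) β0) α0 (k⁻¹ • z) ≠ 0 := by
          intro h0
          apply hz
          unfold pk
          rw [h0, zero_mul, map_zero, mul_zero]
        refine hloc h k (k⁻¹ • z) hh hk hz2 ?_
        rw [smul_inv_smul]
        exact hz1) (by
      have hb : ∀ k ∈ TAI_Z δ1, ENNReal.ofReal ‖∫ z : ℍ, pk r (pc β1 α) z * conj (pk r (pc (st (-T) β0) α0) (k⁻¹ • z))‖ ≤
          ENNReal.ofReal (C1 * Real.exp (-(T / 2)) / (Real.exp (-T) * r * δ1) ^ 2) := by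
        intro k hk
        apply ENNReal.ofReal_le_ofReal
        rw [hG k, RCLike.norm_conj]
        refine (h1 T r k⁻¹ hT hr).trans ?_
        rw [(TAI_e k).2.2.1, abs_neg]
        have hpos : 0 < Real.exp (-T) * r * δ1 := by positivity
        have hle : Real.exp (-T) * r * δ1 ≤ 1 + Real.exp (-T) * r * |k.1 1 0| := by
          have h6 : Real.exp (-T) * r * δ1 ≤ Real.exp (-T) * r * |k.1 1 0| :=
            mul_le_mul_of_nonneg_left hk.2.le (by positivity)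
          linarith
        exact div_le_div_of_nonneg_left (by positivity) (by positivity) (pow_le_pow_left₀ hpos.le hle 2)
      refine (setLIntegral_mono' (TAI_Zm δ1) hb).trans ?_
      rw [setLIntegral_const, hmZ, ← ENNReal.ofReal_mul (by positivity)]
      apply ENNReal.ofReal_le_ofReal
      apply le_of_eq
      rw [hC']
      field_simp)
  have hi0 : 0 ≤ iR F (fun g => ‖s g‖ ^ 2) := by
    unfold iR
    exact integral_nonneg fun g => by positivity
  have hr2 : 0 < r ^ 2 := by positivity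
  have h7 := mul_le_mul_of_nonneg_left hkey hr2.le
  refine h7.trans ?_
  have h8 : r ^ 2 * ((C' / r ^ 2) ^ 2 * iR F (fun g => ‖s g‖ ^ 2)) = C' ^ 2 / r ^ 2 * iR F (fun g => ‖s g‖ ^ 2) := by
    field_simp
  rw [h8]
  apply mul_le_mul_of_nonneg_right _ hi0
  exact div_le_div_of_nonneg_right (by linarith) hr2.le

end Pool.Agent.HV
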